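import Pool.Agent.H.MP_d93d44_co.B

namespace Pool.Agent.Results.MP_884c22_co.Quartic

open Matrix Polynomial

open Classical in
noncomputable def U {n : ℕ} (X : SimpleGraph (Fin n)) (t : ℝ) : Matrix (Fin n) (Fin n) ℂ :=
  NormedSpace.exp (((t : ℂ) * Complex.I) • X.adjMatrix ℂ)

open Classical in
noncomputable def E {n : ℕ} (X : SimpleGraph (Fin n)) (θ : ℝ) (a : Fin n) :
    EuclideanSpace ℝ (Fin n) :=
  (Module.End.eigenspace (toEuclideanLin (X.adjMatrix ℝ)) θ).starProjection
    (EuclideanSpace.single a 1)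

open Pool.Agent.H.MP_d93d44_co A B

theorem U_eq : U G t = B.U := by
  unfold U B.U
  congr

theorem E_eq (θ : ℝ) (a : Fin 50) :
    E G θ a = proj (G.adjMatrix ℝ) θ (EuclideanSpace.single a 1) := by
  unfold E proj
  congr

theorem irs : Irrational s := by
  have : Nat.Prime 17 := by norm_num
  simpa [s] using this.irrational_sqrt

theorem ird : Irrational d := by
  have : Nat.Prime 41 := by norm_num
  simpa [d] using this.irrational_sqrt

theorem irsd : Irrational (s * d) := by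
  rw [s, d, ← Real.sqrt_mul (by norm_num), show (17 : ℝ) * 41 = 697 by norm_num,
    irrational_sqrt_ofNat_iff]
  norm_num

theorem lin (a b : ℚ) : d ≠ a + b * s := fun h => by
  have h1 : (2 * a * b : ℚ) * s = (41 - a ^ 2 - 17 * b ^ 2 : ℚ) := by
    push_cast
    have := d2
    rw [h] at this
    linear_combination this - (b : ℝ) ^ 2 * s2
  by_cases h2 : 2 * a * b = 0
  · rcases mul_eq_zero.1 h2 with h3 | h3
    · have : a = 0 := by linarith
      exact irsd ⟨17 * b, by rw [h, this]; push_cast; linear_combination (-b : ℝ) * s2⟩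
    · exact ird ⟨a, by rw [h, h3]; simp⟩
  · exact (irs.ratCast_mul h2).ne_rat _ h1

theorem quad (p q : ℚ) : ((7 + s) / 2 + d) ^ 2 + p * ((7 + s) / 2 + d) + q ≠ 0 := fun h => by
  have hk : (17 - (7 + p) ^ 2 : ℚ) ≠ 0 := fun e => by
    have e' : (17 : ℝ) - (7 + p) ^ 2 = 0 := by exact_mod_cast e
    have h3 : (s - (7 + p)) * (s + (7 + p)) = 0 := by linear_combination s2 + e'
    rcases mul_eq_zero.1 h3 with h | h
    · exact irs ⟨7 + p, by push_cast; linarith⟩
    · exact irs ⟨-(7 + p), by push_cast; linarith⟩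
  have hk' : (17 : ℝ) - (7 + p) ^ 2 ≠ 0 := by exact_mod_cast hk
  set r : ℚ := (7 + p) ^ 2 / 2 - (115 / 2 + 7 * p / 2 + q) with hr
  apply lin (-(7 + p) / 2 - r * (7 + p) / (17 - (7 + p) ^ 2)) (r / (17 - (7 + p) ^ 2))
  have e : (s + (7 + p)) * (d + (7 + p) / 2) = r := by
    rw [hr]
    push_cast
    linear_combination h - s2 / 4 - d2
  push_cast
  field_simp
  linear_combination 2 * (s - (7 + p)) * e - (2 * d + 7 + p) * s2

theorem integral : IsIntegral ℚ ((7 + s) / 2 + d) := by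
  have a : IsIntegral ℚ s := IsIntegral.of_pow two_pos (by
    rw [s2]; exact_mod_cast isIntegral_natCast (R := ℚ) (17 : ℕ))
  have b : IsIntegral ℚ d := IsIntegral.of_pow two_pos (by
    rw [d2]; exact_mod_cast isIntegral_natCast (R := ℚ) (41 : ℕ))
  have c := ((isIntegral_algebraMap (R := ℚ) (A := ℝ) (x := 7 / 2)).add (a.smul (1 / 2 : ℚ))).add b
  have e : (7 + s) / 2 + d = algebraMap ℚ ℝ (7 / 2) + (1 / 2 : ℚ) • s + d := by
    simp only [eq_ratCast, Rat.smul_def]
    push_cast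
    ring
  rw [e]
  exact c

theorem deg : 3 ≤ (minpoly ℚ ((7 + s) / 2 + d)).natDegree := by
  by_contra hn
  have hm := minpoly.monic integral
  have h0 := minpoly.aeval ℚ ((7 + s) / 2 + d)
  have hp := minpoly.natDegree_pos integral
  have hc := hm.coeff_natDegree
  rw [aeval_eq_sum_range] at h0
  generalize minpoly ℚ ((7 + s) / 2 + d) = f at *
  obtain h | h : f.natDegree = 1 ∨ f.natDegree = 2 := by omega
  · rw [h] at h0 hc
    simp only [Finset.sum_range_succ, Finset.sum_range_zero, hc, Rat.smul_def] at h0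
    exact quad (f.coeff 0) 0 (by push_cast at h0 ⊢; linear_combination ((7 + s) / 2 + d) * h0)
  · rw [h] at h0 hc
    simp only [Finset.sum_range_succ, Finset.sum_range_zero, hc, Rat.smul_def] at h0
    exact quad (f.coeff 1) (f.coeff 0) (by push_cast at h0 ⊢; linear_combination h0)

theorem result : ∃ (n : ℕ) (X : SimpleGraph (Fin n)) (a b : Fin n) (τ : ℝ) (α β : ℂ) (θ : ℝ),
    a ≠ b ∧ 0 < τ ∧ α ≠ 0 ∧ β ≠ 0 ∧
    U X τ *ᵥ Pi.single a 1 = α • Pi.single a 1 + β • Pi.single b 1 ∧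
    E X θ a ≠ 0 ∧ 3 ≤ (minpoly ℚ θ).natDegree := by
  refine ⟨50, G, 0, 1, t, B.U 0 0, B.U 1 0, (7 + s) / 2 + d, by decide,
    div_pos (by positivity) d_pos, U00, U_symm 0 1 ▸ U01, ?_, ?_, deg⟩
  · rw [U_eq]
    funext v
    by_cases h0 : v = 0
    · simp [h0]
    · by_cases h1 : v = 1
      · simp [h1]
      · simp [h0, h1, (off v h0 h1).1]
  · rw [E_eq]
    refine proj_supp _ _ _ (e1 _ hp) 0 ?_
    show 8 * ((7 + s) / 2 + d - 7) ≠ 0
    have : 4 < s := by nlinarith [s2, s_pos]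
    have := s_lt
    exact (by linarith : _ > _).ne'

end Pool.Agent.Results.MP_884c22_co.Quartic
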